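import Pool.Agent.helper55.GL.Spec

set_option autoImplicit false

namespace Pool.Agent.GL

open SimpleGraph

theorem HST_adj {X Y : Type} (R : X → Y → Prop) (x : X) (y : Y) (h : R x y) :
    (Gr R).Adj (Sum.inl x) (Sum.inr y) := by
  unfold Gr
  rw [SimpleGraph.fromRel_adj]
  exact ⟨by simp, Or.inl ⟨x, y, rfl, rfl, h⟩⟩

theorem HST : HST_stmt := by
  classical
  intro n B W K hB
  have hcard : Fintype.card (Fin n ⊕ Fin n) = 2 * n := by
    rw [Fintype.card_sum, Fintype.card_fin]; ring
  have hle : B.card ≤ (Gr (fun u v : Fin n => (u, v) ∈ B)).edgeFinset.card := by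
    refine Finset.card_le_card_of_injOn
      (fun e : Fin n × Fin n => s(Sum.inl e.1, Sum.inr e.2)) ?_ ?_
    · intro e he
      rw [Finset.mem_coe, SimpleGraph.mem_edgeFinset, SimpleGraph.mem_edgeSet]
      exact HST_adj _ _ _ he
    · rintro ⟨a, b⟩ _ ⟨c, d⟩ _ h
      simpa using h
  refine IsContained.of_extremalNumber_lt_card_edgeFinset ?_
  rw [hcard]
  exact lt_of_lt_of_le hB hle

end Pool.Agent.GL
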